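import Pool.Agent.W46.KK.Final
import Pool.Agent.W904.AK.Sdc2

/-!
# The Minkowski dimension of sets with progressions of all common differences
-/

set_option autoImplicit false

/-- For every `n` and all large `k`, `f^M_n(k) ≥ n / 1.67108`. -/
theorem Pool.Agent.Results.MP_4b405e_nt.ArithmeticExponent.result (n : ℕ) :
    ∃ k₀ : ℕ, ∀ k ≥ k₀, (((n : ℝ) / 1.67108 : ℝ) : EReal) ≤ Pool.Agent.W46.KK.fM n k := by
  have hsd : Pool.Agent.W46.KK.SD (167108 / 100000) := by
    obtain ⟨S, h⟩ := Pool.Agent.W904.AK.sdc2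
    exact ⟨S, h⟩
  have e : (1.67108 : ℝ) = 167108 / 100000 := by norm_num
  rw [e]
  exact Pool.Agent.W46.KK.prog_dim hsd (by norm_num) n
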